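import Pool.Agent.U516.SG.FinK3
import Pool.Agent.U516.SG.PkgCHB
import Pool.Agent.U516.SG.PkgCMP
import Pool.Agent.U516.R3.PkgST
import Pool.Agent.U516.R3.PkgCM
import Pool.Agent.U516.R3.PkgAMQ
import Pool.Agent.U516.R3.PkgTR
import Pool.Agent.U516.R3.PkgFF
import Pool.Agent.U516.R3.PkgNUQ
import Pool.Agent.U516.P2.PkgRAT
import Pool.Agent.U516.P2.PkgVAR
import Pool.Agent.U516.P2.PkgSEC

/-!
MP_838239_al.  For EVERY fixed `m ≥ 3` and every `δ > 0`, `m` random elements of `Alt(n)` are almost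
surely `ε`-expanding with `ε = n ^ (- 3 + c_m - δ)`, where

  `c_m = min ((m - 2) / (2 (m + 1))) ((m - 2) / (3 (m - 1)))`  (`1/8, 1/5, 1/4` for `m = 3, 4, 5`).

The best bound known before is `n ^ (- 3 - o(1))`.

Proof.  By the gap on `r`-tuples (`GapFewGenerators`), words of length `n ^ (1 + o(1))` are
transitive on `r`-tuples, `r = n ^ (c_m - o(1))`.  Almost surely there is a word `v` of length
`n ^ (1 + o(1))` whose support `s` is between `r / 512` and `r`; so all conjugates of `v` are words of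
length `n ^ (1 + o(1))`.  The Dirichlet form of the walk is at least `n ^ (- 2 - o(1))` times that of
the walk given by the conjugacy class of `v`, whose gap is at least `c s / n`:  for every nontrivial
irreducible `ρ` of `Alt(n)` one has `|χ(v)| / d ≤ exp (- b s / n)`.  Indeed `(χ(v) / d) ^ N` is the
mean of `χ / d` at the product of `N = (n / s) log n` random conjugates of `v`, this product has at
most two fixed points on the average, and `|χ(g)| / d ≤ n ^ (-b)` if `g` has at most `n ^ (1/2)`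
fixed points.
-/

namespace Pool.Agent.Results.MP_838239_al.SpectralGapFewGenerators
open Filter Topology

noncomputable section

/-- `(Δ^S f)(g) = ∑_{s ∈ S} f(s⁻¹ g)` for `S = {x_1^{±1}, …, x_m^{±1}}` -/
def delta {n m : ℕ} (x : Fin m → alternatingGroup (Fin n)) (f : alternatingGroup (Fin n) → ℝ)
    (g : alternatingGroup (Fin n)) : ℝ := ∑ i, (f ((x i)⁻¹ * g) + f (x i * g))

/-- `S = {x_1^{±1}, …, x_m^{±1}}` is `ε`-expanding: `⟨f, Δ^S f⟩ ≤ (2 m - ε) ⟨f, f⟩` for all functions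
`f` of sum zero -/
def Expanding {n m : ℕ} (ε : ℝ) (x : Fin m → alternatingGroup (Fin n)) : Prop :=
  ∀ f : alternatingGroup (Fin n) → ℝ, ∑ g, f g = 0 →
    ∑ g, f g * delta x f g ≤ (2 * m - ε) * ∑ g, f g ^ 2

theorem result (m : ℕ) (hm : 3 ≤ m) (δ : ℝ) (hδ : 0 < δ) : Tendsto (fun n : ℕ =>
    (Nat.card {x : Fin m → alternatingGroup (Fin n) // Expanding ((n : ℝ) ^ (-(3 -
      min (((m : ℝ) - 2) / (2 * (m + 1))) (((m : ℝ) - 2) / (3 * (m - 1))) + δ))) x} : ℝ) /
        (Fintype.card (alternatingGroup (Fin n)) : ℝ) ^ m) atTop (𝓝 1) := by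
  have hSEC := P2516.t_SEC P2516.t_RAT P2516.t_VAR R3516.t_FF
  have hCHB := SG516.t_CHB P2516.t_RAT
  refine RD516.tendsto_of_bad (k := m) (fun n x => Expanding ((n : ℝ) ^ (-(3 -
      min (((m : ℝ) - 2) / (2 * (m + 1))) (((m : ℝ) - 2) / (3 * (m - 1))) + δ))) x)
    fun e he => ?_
  filter_upwards [SG516.mainGK R3516.t_ST R3516.t_CM R3516.t_AMQ R3516.t_TR R3516.t_FF
    R3516.t_NUQ hSEC hCHB SG516.t_CMP m hm δ hδ e he] with n hn
  refine le_trans ?_ hn
  refine Nat.cast_le.mpr (RC14.card_mono _ _ fun x hx hcon => hx ?_)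
  intro f hf
  set γ : ℝ := (n : ℝ) ^ (-(3 -
      min (((m : ℝ) - 2) / (2 * (m + 1))) (((m : ℝ) - 2) / (3 * (m - 1))) + δ)) with hγ
  have hγ0 : 0 ≤ γ := by positivity
  have hm3 : (3 : ℝ) ≤ m := by exact_mod_cast hm
  have h1 : ∑ g, f g⁻¹ = 0 := by
    rw [← hf]
    exact Equiv.sum_comp (Equiv.inv (alternatingGroup (Fin n))) f
  have h2 := hcon (fun g => f g⁻¹) h1
  have h3 : ∑ g : alternatingGroup (Fin n), f g⁻¹ ^ 2 = ∑ g, f g ^ 2 :=
    Equiv.sum_comp (Equiv.inv (alternatingGroup (Fin n))) (fun g => f g ^ 2)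
  have h4 : ∑ g : alternatingGroup (Fin n), f g⁻¹ *
      ((∑ i, (f (g * x i)⁻¹ + f (g * (x i)⁻¹)⁻¹)) / (2 * m)) =
      (∑ g, f g * delta x f g) / (2 * m) := by
    rw [Finset.sum_div, ← Equiv.sum_comp (Equiv.inv (alternatingGroup (Fin n)))
      (fun g => f g * delta x f g / (2 * m))]
    refine Finset.sum_congr rfl fun g _ => ?_
    simp only [Equiv.inv_apply, delta, mul_inv_rev, inv_inv]
    rw [mul_div_assoc]
  have h5 : ∑ g : alternatingGroup (Fin n), f g⁻¹ *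
      ((∑ i, (f (g * x i)⁻¹ + f (g * (x i)⁻¹)⁻¹)) / (2 * m)) ≤
      (1 - γ) * ∑ g : alternatingGroup (Fin n), f g⁻¹ ^ 2 := h2
  rw [h3, h4, div_le_iff₀ (by linarith)] at h5
  have h0 : (0 : ℝ) ≤ ∑ g, f g ^ 2 := Finset.sum_nonneg fun g _ => sq_nonneg _
  have h6 : 0 ≤ γ * ∑ g, f g ^ 2 := mul_nonneg hγ0 h0
  nlinarith

end

end Pool.Agent.Results.MP_838239_al.SpectralGapFewGenerators
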